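import Pool.Agent.H73.GWT.Stmts

/-! Row `LDC` of the board `gwt` of helper73 (MP_213ba5_lc). -/

set_option autoImplicit false

open Classical

namespace GWT

section code

variable {ι G V : Type*} [Fintype ι] [Group G] [MulAction G V] (C : Code ι G V)

theorem LDC (h1 : IN1Stmt C) : LDCStmt C := by
  -- `g c_s o` on `[o, g o]`
  have hb : ∀ (g : G) (s : ι), LB C g s → Bt C.T C.o (g • C.c s • C.o) (g • C.o) := by
    intro g s hs
    have h2 : C.T.dist (g • C.c s • C.o) (g • C.o) = C.Λ := by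
      rw [C.ds, dcomm]
      exact C.d1 s
    unfold Bt
    rw [h2]
    exact hs
  refine ⟨?_, ?_⟩
  · intro g x y hx hy
    have h3 : C.T.dist C.o (g • C.c x • C.o) = C.T.dist C.o (g • C.c y • C.o) := by
      have e1 : C.T.dist C.o (g • C.c x • C.o) + C.Λ = C.T.dist C.o (g • C.o) := hx
      have e2 : C.T.dist C.o (g • C.c y • C.o) + C.Λ = C.T.dist C.o (g • C.o) := hy
      omega
    exact h1.1 x y (smul_left_cancel g (UNQ C.tree (hb g x hx) (hb g y hy) h3))
  · intro m m' v t x y b1 b2 b3 b4 hx hy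
    have key : ∀ (n : G) (s : ι),
        Bt C.T C.o (n • (C.c t) ^ 2 • C.o) ((n * C.c t ^ 4 * v) • C.o) →
        C.d C.o (n • (C.c t) ^ 2 • C.o) + C.Λ ≤ C.d C.o ((n * C.c t ^ 4 * v) • C.o) →
        LB C (n * C.c t ^ 4 * v) s →
        Bt C.T C.o (C.c s • C.o) ((v⁻¹ * (C.c t ^ 2)⁻¹) • C.o) := by
      intro n s c1 c2 hs
      have e1 : C.T.dist C.o ((n * C.c t ^ 4 * v) • C.c s • C.o) + C.Λ =
          C.T.dist C.o ((n * C.c t ^ 4 * v) • C.o) := hs
      have e2 : C.T.dist C.o (n • (C.c t) ^ 2 • C.o) + C.Λ ≤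
          C.T.dist C.o ((n * C.c t ^ 4 * v) • C.o) := c2
      have h4 := (ORD C.tree c1 (hb _ s hs) (by omega)).2
      have e3 : n • (C.c t) ^ 2 • C.o =
          (n * C.c t ^ 4 * v) • (v⁻¹ * (C.c t ^ 2)⁻¹) • C.o := by
        rw [smul_smul, smul_smul]
        congr 1
        group
      rw [e3, C.bs] at h4
      exact h4.symm
    refine h1.1 x y (UNQ C.tree (key m x b1 b2 hx) (key m' y b3 b4 hy) ?_)
    exact (C.d1 x).trans (C.d1 y).symm

end code

end GWT
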